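import Mathlib
import Pool.Agent.Lib.MP_5c1ef7_an.Defs
import Pool.Agent.Lib.MP_5c1ef7_an.P15

set_option autoImplicit false

/-!
# Kadison-Kastler stability of crossed products with a Cartan masa

The definitions `kkDist`, `IsTrace`, `IsII1Factor`, `BddMeas`, `IsCrossedProduct`, `IsMasaIn` are in
`Pool/Agent/Lib/MP_5c1ef7_an/Defs.lean`.
-/

open MeasureTheory

namespace Pool.Agent.Results.MP_5c1ef7_an.Stability

open Pool.Agent.KKS

/-- The von Neumann algebras `M` and `N` are isomorphic: there is a bijection of `M` onto `N` which is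
complex linear, multiplicative and preserves adjoints (`Φ` is only of interest on `M`). -/
def IsIsomorphic {H : Type*} [NormedAddCommGroup H] [InnerProductSpace ℂ H] [CompleteSpace H]
    (M N : VonNeumannAlgebra H) : Prop :=
  ∃ Φ : (H →L[ℂ] H) → (H →L[ℂ] H),
    (∀ x ∈ M, Φ x ∈ N) ∧
    (∀ x ∈ M, ∀ y ∈ M, Φ x = Φ y → x = y) ∧
    (∀ z ∈ N, ∃ x ∈ M, Φ x = z) ∧
    (∀ x ∈ M, ∀ y ∈ M, Φ (x + y) = Φ x + Φ y) ∧
    (∀ x ∈ M, ∀ y ∈ M, Φ (x * y) = Φ x * Φ y) ∧
    (∀ c : ℂ, ∀ x ∈ M, Φ (c • x) = c • Φ x) ∧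
    (∀ x ∈ M, Φ (star x) = star (Φ x))

theorem isIsomorphic_of_equiv {H : Type*} [NormedAddCommGroup H] [InnerProductSpace ℂ H]
    [CompleteSpace H] {M N : VonNeumannAlgebra H}
    (e : M.toStarSubalgebra ≃⋆ₐ[ℂ] N.toStarSubalgebra) : IsIsomorphic M N := by
  classical
  set Φ : (H →L[ℂ] H) → (H →L[ℂ] H) :=
    fun x => if h : x ∈ M.toStarSubalgebra then (e ⟨x, h⟩ : H →L[ℂ] H) else 0 with hΦ
  have h0 : ∀ x (h : x ∈ M.toStarSubalgebra), Φ x = (e ⟨x, h⟩ : H →L[ℂ] H) := by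
    intro x h
    simp only [hΦ, dif_pos h]
  refine ⟨Φ, ?_, ?_, ?_, ?_, ?_, ?_, ?_⟩
  · intro x hx
    have hx' : x ∈ M.toStarSubalgebra := hx
    rw [h0 x hx']
    exact (e ⟨x, hx'⟩).2
  · intro x hx y hy hxy
    have hx' : x ∈ M.toStarSubalgebra := hx
    have hy' : y ∈ M.toStarSubalgebra := hy
    rw [h0 x hx', h0 y hy'] at hxy
    have h1 := e.injective (Subtype.ext hxy)
    exact congrArg Subtype.val h1
  · intro z hz
    have hz' : z ∈ N.toStarSubalgebra := hz
    refine ⟨(e.symm ⟨z, hz'⟩ : M.toStarSubalgebra), (e.symm ⟨z, hz'⟩).2, ?_⟩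
    rw [h0 _ (e.symm ⟨z, hz'⟩).2]
    exact congrArg Subtype.val (e.apply_symm_apply ⟨z, hz'⟩)
  · intro x hx y hy
    have hx' : x ∈ M.toStarSubalgebra := hx
    have hy' : y ∈ M.toStarSubalgebra := hy
    rw [h0 x hx', h0 y hy', h0 (x + y) (add_mem hx' hy')]
    exact congrArg Subtype.val (e.map_add' ⟨x, hx'⟩ ⟨y, hy'⟩)
  · intro x hx y hy
    have hx' : x ∈ M.toStarSubalgebra := hx
    have hy' : y ∈ M.toStarSubalgebra := hy
    rw [h0 x hx', h0 y hy', h0 (x * y) (mul_mem hx' hy')]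
    exact congrArg Subtype.val (e.map_mul' ⟨x, hx'⟩ ⟨y, hy'⟩)
  · intro c x hx
    have hx' : x ∈ M.toStarSubalgebra := hx
    rw [h0 x hx', h0 (c • x) (M.toStarSubalgebra.smul_mem hx' c)]
    exact congrArg Subtype.val (e.map_smul' c ⟨x, hx'⟩)
  · intro x hx
    have hx' : x ∈ M.toStarSubalgebra := hx
    rw [h0 x hx', h0 (star x) (star_mem hx')]
    exact congrArg Subtype.val (e.map_star' ⟨x, hx'⟩)

/-- There is a universal `δ > 0` with the following property.  Let `Γ` be a countable group which acts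
on a standard probability space `(X, μ)` by measure preserving transformations, `M` a `II₁` factor on a
Hilbert space `H` which is the crossed product `L^∞(X, μ) ⋊ Γ` and in which `L^∞(X, μ)` is a (Cartan)
masa, and `N` a `II₁` factor on `H` whose Kadison-Kastler distance to `M` is less than `δ`.  Then `M`
and `N` are isomorphic.  Nothing is assumed on uniqueness of the Cartan masa or on cohomology. -/
theorem result.{u, v, w} : ∃ δ : ℝ, 0 < δ ∧
    ∀ (H : Type u) [NormedAddCommGroup H] [InnerProductSpace ℂ H] [CompleteSpace H]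
      (X : Type v) [MeasurableSpace X] [StandardBorelSpace X] (μ : Measure X)
      [IsProbabilityMeasure μ] (Γ : Type w) [Group Γ] [Countable Γ] [MulAction Γ X]
      (M N : VonNeumannAlgebra H) (π : (X → ℂ) → H →L[ℂ] H) (u : Γ → H →L[ℂ] H),
      (∀ g : Γ, MeasurePreserving (fun x => g • x) μ μ) →
      IsII1Factor M → IsCrossedProduct μ M π u → IsMasaIn M π →
      IsII1Factor N → kkDist M N < δ → IsIsomorphic M N := by
  obtain ⟨δ, hδ, h⟩ := Pool.Agent.KKS.main.{u, v, w}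
  refine ⟨δ, hδ, ?_⟩
  intro H _ _ _ X _ _ μ _ Γ _ _ _ M N π u hmp hM hcp hm hN hd
  obtain ⟨e⟩ := h hmp hM hcp hm hN hd
  exact isIsomorphic_of_equiv e

end Pool.Agent.Results.MP_5c1ef7_an.Stability
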